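import Pool.Agent.MP_3fce03_co.Lower

set_option autoImplicit false

namespace Pool.Agent.Results.MP_3fce03_co.Exact

open Pool.Agent.MP_3fce03_co

/-- The largest convexly independent subset of A + A, over all convex n-point sets A in the plane,
has 2n - 2 points for n ≤ 6 and 2n - 3 points for n ≥ 7. -/
theorem result (n : ℕ) (hn : 3 ≤ n) :
    IsGreatest {m : ℕ | ∃ A X : Finset (ℝ × ℝ), A.card = n ∧
        (∀ x ∈ A, x ∉ convexHull ℝ ((A : Set (ℝ × ℝ)) \ {x})) ∧
        (∀ x ∈ X, ∃ a ∈ A, ∃ b ∈ A, x = a + b) ∧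
        (∀ x ∈ X, x ∉ convexHull ℝ ((X : Set (ℝ × ℝ)) \ {x})) ∧ X.card = m}
      (if n ≤ 6 then 2 * n - 2 else 2 * n - 3) := by
  constructor
  · split_ifs with h
    · exact lower_small n hn h
    · exact lower_big n hn
  · rintro m ⟨A, X, hc, hA, hXA, hX, rfl⟩
    obtain ⟨S, h1, h2⟩ := toSys A X (Finset.card_pos.1 (by omega)) hA hXA hX
    split_ifs with h
    · have := S.upper2 (by omega) h2
      omega
    · have := S.upper7 (by omega) h2
      omega

end Pool.Agent.Results.MP_3fce03_co.Exact
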